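import Mathlib

set_option autoImplicit false

namespace Pool.Agent.SoficActions

universe u v w

/-- The normalized Hamming distance on the symmetric group of a finite set `A`:
the proportion of points at which the two permutations differ. -/
noncomputable def hammingDist {A : Type w} (σ τ : Equiv.Perm A) : ℝ :=
  ({a : A | σ a ≠ τ a}.ncard : ℝ) / (Nat.card A : ℝ)

/-- `φ : G → Sym(A)` is `(F, ε)`-multiplicative. -/
def IsMultiplicative {G : Type u} [Group G] {A : Type w} (φ : G → Equiv.Perm A)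
    (F : Finset G) (ε : ℝ) : Prop :=
  ∀ g ∈ F, ∀ h ∈ F, hammingDist (φ (g * h)) (φ g * φ h) < ε

/-- `φ : G → Sym(A)` is an `(F, E, ε)`-orbit approximation of the action `α : G → Sym(X)`. -/
def IsOrbitApproximation {G : Type u} {X : Type v} [Group G] (α : G →* Equiv.Perm X)
    {A : Type w} (φ : G → Equiv.Perm A) (F : Finset G) (E : Finset X) (ε : ℝ) : Prop :=
  ∃ (B : Type) (_ : Finite B) (S : Set A) (π : S → (E ↪ B)),
    (1 - ε) * (Nat.card A : ℝ) < (S.ncard : ℝ) ∧
    ∀ (s : S) (g : G), g ∈ F → ∀ (x : X) (hx : x ∈ E) (hs : φ g s ∈ S) (hgx : α g⁻¹ x ∈ E),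
      π ⟨φ g s, hs⟩ ⟨x, hx⟩ = π s ⟨α g⁻¹ x, hgx⟩

/-- An action `α : G → Sym(X)` is sofic if for all finite `F ⊆ G`, `E ⊆ X` and all `ε > 0` there
are a finite set `A` and a unital `(F, ε)`-multiplicative map `φ : G → Sym(A)` which is an
`(F, E, ε)`-orbit approximation of `α`. -/
def IsSoficAction {G : Type u} {X : Type v} [Group G] (α : G →* Equiv.Perm X) : Prop :=
  ∀ (F : Finset G) (E : Finset X) (ε : ℝ), 0 < ε →
    ∃ (A : Type) (_ : Finite A) (φ : G → Equiv.Perm A),
      φ 1 = 1 ∧ IsMultiplicative φ F ε ∧ IsOrbitApproximation α φ F E ε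

end Pool.Agent.SoficActions
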