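import Mathlib
import Pool.Agent.SoficActions.Defs

set_option autoImplicit false

/-!
# Free product actions of sofic actions are sofic

Let `α i : G i → Sym(X)` be sofic actions on one set. Given finite data, take approximations
`φ i : G i → Sym(A i)`, `π i : S i → (E ↪ B i)`, put all the `B i` and `E` in one finite set `B`
(with `j₀ : E ↪ B`), choose `c i s ∈ Sym(B)` with `c i s ∘ j₀ = π i s`, and let `A = Sym(B) × ∏ A i`.
Then `θ i (σ, s) = (σ (c i (s i))⁻¹, s)` is a bijection of `A`, and conjugating by `θ i` the action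
of `φ i` on the `i`-th coordinate gives maps `G i → Sym(A)` which are as multiplicative as the
`φ i`, and for which `(σ, s) ↦ σ ∘ j₀` is a common orbit approximation.
-/

namespace Pool.Agent.SoficActions

universe u v w

/-! ### The Hamming distance -/

section hamming

variable {A : Type w} {P : Type*} {C : Type*}

theorem hd_self (σ : Equiv.Perm A) : hammingDist σ σ = 0 := by
  simp [hammingDist]

theorem hd_comm (σ τ : Equiv.Perm A) : hammingDist σ τ = hammingDist τ σ := by
  simp [hammingDist, ne_comm]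

theorem hd_triangle [Finite A] (σ τ ρ : Equiv.Perm A) :
    hammingDist σ ρ ≤ hammingDist σ τ + hammingDist τ ρ := by
  unfold hammingDist
  rw [← add_div]
  gcongr
  have h1 : {a : A | σ a ≠ ρ a} ⊆ {a : A | σ a ≠ τ a} ∪ {a : A | τ a ≠ ρ a} := by
    intro a ha
    simp only [Set.mem_ofPred_eq, Set.mem_union] at *
    by_contra hcon
    push Not at hcon
    exact ha (hcon.1.trans hcon.2)
  have h2 := (Set.ncard_le_ncard h1 (Set.toFinite _)).trans (Set.ncard_union_le _ _)
  exact_mod_cast h2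

theorem hd_mul_right [Finite A] (σ σ' τ : Equiv.Perm A) :
    hammingDist (σ * τ) (σ' * τ) = hammingDist σ σ' := by
  unfold hammingDist
  congr 2
  have : {a : A | (σ * τ) a ≠ (σ' * τ) a} = τ ⁻¹' {a : A | σ a ≠ σ' a} := by
    ext a; simp
  rw [this, Set.ncard_preimage_of_injective_subset_range τ.injective]
  intro a _
  exact τ.surjective a

theorem hd_mul_left (σ τ τ' : Equiv.Perm A) :
    hammingDist (σ * τ) (σ * τ') = hammingDist τ τ' := by
  unfold hammingDist
  congr 3
  ext a; simp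

theorem hd_mul [Finite A] (σ σ' τ τ' : Equiv.Perm A) :
    hammingDist (σ * τ) (σ' * τ') ≤ hammingDist σ σ' + hammingDist τ τ' := by
  calc hammingDist (σ * τ) (σ' * τ') ≤ hammingDist (σ * τ) (σ' * τ) +
        hammingDist (σ' * τ) (σ' * τ') := hd_triangle _ _ _
    _ = _ := by rw [hd_mul_right, hd_mul_left]

/-- Transport a permutation of `A` to a permutation of `C` along `C ≃ P × A`. -/
def liftPerm (e : C ≃ P × A) (σ : Equiv.Perm A) : Equiv.Perm C :=
  (e.trans (Equiv.prodCongr (Equiv.refl P) σ)).trans e.symm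

theorem liftPerm_one (e : C ≃ P × A) : liftPerm e (1 : Equiv.Perm A) = 1 := by
  ext c; simp [liftPerm]

theorem liftPerm_mul (e : C ≃ P × A) (σ τ : Equiv.Perm A) :
    liftPerm e (σ * τ) = liftPerm e σ * liftPerm e τ := by
  ext c
  simp only [liftPerm, Equiv.Perm.coe_mul, Equiv.trans_apply, Function.comp_apply,
    Equiv.apply_symm_apply]
  rfl

theorem ncard_preimage_snd [Finite P] [Finite A] (e : C ≃ P × A) (T : Set A) :
    ({c : C | (e c).2 ∈ T}.ncard : ℝ) = (Nat.card P : ℝ) * (T.ncard : ℝ) := by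
  have h1 : {c : C | (e c).2 ∈ T} = e ⁻¹' (Set.univ ×ˢ T) := by
    ext c; simp
  rw [h1, Set.ncard_preimage_of_injective_subset_range e.injective
    (fun a _ => e.surjective a), Set.ncard_prod, Set.ncard_univ]
  push_cast
  rfl

theorem card_split [Finite P] [Finite A] (e : C ≃ P × A) :
    (Nat.card C : ℝ) = (Nat.card P : ℝ) * (Nat.card A : ℝ) := by
  rw [Nat.card_congr e, Nat.card_prod]
  push_cast
  rfl

theorem hd_liftPerm [Finite P] [Nonempty P] [Finite A] (e : C ≃ P × A) (σ τ : Equiv.Perm A) :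
    hammingDist (liftPerm e σ) (liftPerm e τ) = hammingDist σ τ := by
  unfold hammingDist
  have h1 : {c : C | liftPerm e σ c ≠ liftPerm e τ c} =
      {c : C | (e c).2 ∈ {a : A | σ a ≠ τ a}} := by
    ext c
    simp [liftPerm, Prod.ext_iff]
  rw [h1, ncard_preimage_snd, card_split e]
  have : (Nat.card P : ℝ) ≠ 0 := by
    exact_mod_cast Nat.card_pos.ne'
  field_simp

end hamming

/-! ### Extending partial injections to permutations -/

theorem exists_perm_extending {E B : Type*} [Finite B] (f g : E ↪ B) :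
    ∃ c : Equiv.Perm B, ∀ x, c (f x) = g x := by
  classical
  have : Fintype B := Fintype.ofFinite B
  let e : {b // b ∈ Set.range f} ≃ {b // b ∈ Set.range g} :=
    (Equiv.ofInjective f f.injective).symm.trans (Equiv.ofInjective g g.injective)
  refine ⟨e.extendSubtype, fun x => ?_⟩
  rw [Equiv.extendSubtype_apply_of_mem e (f x) ⟨x, rfl⟩]
  have : (⟨f x, ⟨x, rfl⟩⟩ : {b // b ∈ Set.range f}) = Equiv.ofInjective f f.injective x := rfl
  simp only [e, Equiv.trans_apply]
  rw [this, Equiv.symm_apply_apply]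
  rfl

/-! ### Gluing finitely many approximations over one base -/

theorem glue_aux {κ : Type u} [Finite κ] {G : κ → Type v} [∀ i, Group (G i)] {X : Type w}
    (α : ∀ i, G i →* Equiv.Perm X) (hα : ∀ i, IsSoficAction (α i))
    (F : ∀ i, Finset (G i)) (E : Finset X) (δ : ℝ) (hδ : 0 < δ) (hδ1 : δ < 1) :
    ∃ (A : Type u) (_ : Finite A) (_ : Nonempty A) (φ : ∀ i, G i → Equiv.Perm A)
      (B : Type) (_ : Finite B) (j : A → (E ↪ B)) (S : Set A),
      (∀ i, φ i 1 = 1) ∧ (∀ i, IsMultiplicative (φ i) (F i) δ) ∧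
      ((Sᶜ.ncard : ℝ) ≤ (Nat.card κ : ℝ) * δ * Nat.card A) ∧
      ∀ i, ∀ a ∈ S, ∀ g ∈ F i, φ i g a ∈ S → ∀ (x : X) (hx : x ∈ E) (hgx : α i g⁻¹ x ∈ E),
        j (φ i g a) ⟨x, hx⟩ = j a ⟨α i g⁻¹ x, hgx⟩ := by
  classical
  have : Fintype κ := Fintype.ofFinite κ
  choose A0 hA0 φ0 hunit hmult B0 hB0 S0 π0 hS0 hπ0 using fun i => hα i (F i) E δ hδ
  -- each `A0 i` and `S0 i` is nonempty
  have hS0ne : ∀ i, (S0 i).Nonempty := by
    intro i
    rw [Set.nonempty_iff_ne_empty]
    intro h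
    have h1 := hS0 i
    rw [h, Set.ncard_empty] at h1
    have : (0 : ℝ) ≤ (1 - δ) * (Nat.card (A0 i) : ℝ) := by
      have : (0 : ℝ) ≤ 1 - δ := by linarith
      positivity
    norm_num at h1
    linarith
  have hA0ne : ∀ i, Nonempty (A0 i) := fun i => ⟨(hS0ne i).some⟩
  -- the common target: `Fin N`-copy of `E ⊕ Σ i, B0 i`
  let B1 := (E ⊕ (Σ i, B0 i))
  have : Finite B1 := inferInstance
  let B := Fin (Nat.card B1)
  let b : B1 ≃ B := Finite.equivFin B1
  let j0 : E ↪ B := ⟨fun x => b (Sum.inl x), fun x y h => Sum.inl_injective (b.injective h)⟩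
  let inj : ∀ i, B0 i ↪ B := fun i =>
    ⟨fun x => b (Sum.inr ⟨i, x⟩), fun x y h => by
      have h1 := Sum.inr_injective (b.injective h)
      exact eq_of_heq (Sigma.mk.inj h1).2⟩
  -- the permutations `c i s`
  have hc : ∀ i (s : A0 i), ∃ c : Equiv.Perm B, ∀ (hs : s ∈ S0 i) (x : E),
      c (j0 x) = inj i (π0 i ⟨s, hs⟩ x) := by
    intro i s
    by_cases hs : s ∈ S0 i
    · obtain ⟨c, hc⟩ := exists_perm_extending j0 ((π0 i ⟨s, hs⟩).trans (inj i))
      exact ⟨c, fun _ x => hc x⟩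
    · exact ⟨1, fun h => absurd h hs⟩
  choose c hc using hc
  let A := Equiv.Perm B × (∀ i, A0 i)
  have : Finite A := inferInstance
  have : Nonempty A := inferInstance
  let P : κ → Type _ := fun i => Equiv.Perm B × (∀ l : {l // l ≠ i}, A0 l)
  let e : ∀ i, A ≃ P i × A0 i := fun i =>
    { toFun := fun a => ((a.1 * (c i (a.2 i))⁻¹, fun l => a.2 l), a.2 i)
      invFun := fun p => (p.1.1 * c i p.2, (Equiv.piSplitAt i A0).symm (p.2, p.1.2))
      left_inv := by
        rintro ⟨σ, s⟩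
        ext1
        · simp
        · exact (Equiv.piSplitAt i A0).symm_apply_apply s
      right_inv := by
        rintro ⟨⟨σ, s⟩, t⟩
        have h1 : (Equiv.piSplitAt i A0).symm (t, s) i = t := by
          simp [Equiv.piSplitAt]
        have h2 : (fun l : {l // l ≠ i} => (Equiv.piSplitAt i A0).symm (t, s) l) = s := by
          funext l
          simp [Equiv.piSplitAt, l.2]
        ext1
        · ext1
          · simp [h1]
          · exact h2
        · exact h1 }
  have hPne : ∀ i, Nonempty (P i) := fun i => inferInstance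
  have hPfin : ∀ i, Finite (P i) := fun i => inferInstance
  -- evaluation of the lifted permutations
  have hlift : ∀ i (τ : Equiv.Perm (A0 i)) (a : A),
      (liftPerm (e i) τ a).1 = a.1 * (c i (a.2 i))⁻¹ * c i (τ (a.2 i)) := by
    intro i τ a
    rfl
  have hlift2 : ∀ i (τ : Equiv.Perm (A0 i)) (a : A),
      (liftPerm (e i) τ a).2 i = τ (a.2 i) := by
    intro i τ a
    simp [liftPerm, e, Equiv.piSplitAt]
  refine ⟨A, inferInstance, inferInstance, fun i g => liftPerm (e i) (φ0 i g), B, inferInstance,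
    fun a => j0.trans a.1.toEmbedding, {a | ∀ i, a.2 i ∈ S0 i}, ?_, ?_, ?_, ?_⟩
  · intro i
    simp only [hunit i, liftPerm_one]
  · intro i g hg h hh
    have := hmult i g hg h hh
    simp only [← liftPerm_mul, hd_liftPerm]
    exact this
  · have h1 : {a : A | ∀ i, a.2 i ∈ S0 i}ᶜ ⊆ ⋃ i, {a : A | (e i a).2 ∈ (S0 i)ᶜ} := by
      intro a ha
      simp only [Set.mem_compl_iff, Set.mem_ofPred_eq, not_forall] at ha
      obtain ⟨i, hi⟩ := ha
      exact Set.mem_iUnion.2 ⟨i, hi⟩
    have h2 : ({a : A | ∀ i, a.2 i ∈ S0 i}ᶜ.ncard : ℝ) ≤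
        ∑ i, ({a : A | (e i a).2 ∈ (S0 i)ᶜ}.ncard : ℝ) := by
      have h3 := Set.ncard_le_ncard h1 (Set.toFinite _)
      have h4 : (⋃ i, {a : A | (e i a).2 ∈ (S0 i)ᶜ}).ncard ≤
          ∑ i, ({a : A | (e i a).2 ∈ (S0 i)ᶜ}.ncard) := by
        have := Finset.set_ncard_biUnion_le (Finset.univ : Finset κ)
          (fun i => {a : A | (e i a).2 ∈ (S0 i)ᶜ})
        simpa using this
      exact_mod_cast h3.trans h4
    have h5 : ∀ i, ({a : A | (e i a).2 ∈ (S0 i)ᶜ}.ncard : ℝ) ≤ δ * Nat.card A := by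
      intro i
      rw [ncard_preimage_snd, card_split (e i)]
      have h6 : ((S0 i).ncard : ℝ) + ((S0 i)ᶜ.ncard : ℝ) = (Nat.card (A0 i) : ℝ) := by
        exact_mod_cast Set.ncard_add_ncard_compl (S0 i)
      have h7 := hS0 i
      have h8 : ((S0 i)ᶜ.ncard : ℝ) ≤ δ * (Nat.card (A0 i) : ℝ) := by linarith
      calc (Nat.card (P i) : ℝ) * ((S0 i)ᶜ.ncard : ℝ)
          ≤ (Nat.card (P i) : ℝ) * (δ * (Nat.card (A0 i) : ℝ)) := by gcongr
        _ = _ := by ring
    calc _ ≤ _ := h2
      _ ≤ ∑ _i : κ, (δ * Nat.card A : ℝ) := Finset.sum_le_sum fun i _ => h5 i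
      _ = _ := by
        rw [Finset.sum_const, Finset.card_univ, nsmul_eq_mul, ← Nat.card_eq_fintype_card (α := κ)]
        ring
  · intro i a ha g hg hga x hx hgx
    have hs : a.2 i ∈ S0 i := ha i
    have hgs : φ0 i g (a.2 i) ∈ S0 i := by
      have := hga i
      rwa [hlift2] at this
    have key := hπ0 i ⟨a.2 i, hs⟩ g hg x hx hgs hgx
    change (liftPerm (e i) (φ0 i g) a).1 (j0 ⟨x, hx⟩) = a.1 (j0 ⟨α i g⁻¹ x, hgx⟩)
    rw [hlift]
    simp only [Equiv.Perm.coe_mul, Function.comp_apply]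
    rw [hc i _ hgs, key, ← hc i _ hs]
    simp

theorem hd_permCongr {A : Type u} {A' : Type v} (e : A ≃ A') (σ τ : Equiv.Perm A) :
    hammingDist (e.permCongr σ) (e.permCongr τ) = hammingDist σ τ := by
  unfold hammingDist
  rw [Nat.card_congr e]
  congr 2
  have : {a : A' | (e.permCongr σ) a ≠ (e.permCongr τ) a} = e '' {a : A | σ a ≠ τ a} := by
    ext a
    simp only [Equiv.permCongr_apply, ne_eq, EmbeddingLike.apply_eq_iff_eq, Set.mem_ofPred_eq,
      Set.mem_image]
    constructor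
    · intro h
      exact ⟨e.symm a, h, e.apply_symm_apply a⟩
    · rintro ⟨b, hb, rfl⟩
      simpa using hb
  rw [this, Set.ncard_image_of_injective _ e.injective]

theorem glue {κ : Type u} [Finite κ] {G : κ → Type v} [∀ i, Group (G i)] {X : Type w}
    (α : ∀ i, G i →* Equiv.Perm X) (hα : ∀ i, IsSoficAction (α i))
    (F : ∀ i, Finset (G i)) (E : Finset X) (δ : ℝ) (hδ : 0 < δ) (hδ1 : δ < 1) :
    ∃ (A : Type) (_ : Finite A) (_ : Nonempty A) (φ : ∀ i, G i → Equiv.Perm A)
      (B : Type) (_ : Finite B) (j : A → (E ↪ B)) (S : Set A),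
      (∀ i, φ i 1 = 1) ∧ (∀ i, IsMultiplicative (φ i) (F i) δ) ∧
      ((Sᶜ.ncard : ℝ) ≤ (Nat.card κ : ℝ) * δ * Nat.card A) ∧
      ∀ i, ∀ a ∈ S, ∀ g ∈ F i, φ i g a ∈ S → ∀ (x : X) (hx : x ∈ E) (hgx : α i g⁻¹ x ∈ E),
        j (φ i g a) ⟨x, hx⟩ = j a ⟨α i g⁻¹ x, hgx⟩ := by
  obtain ⟨A, hA, hAne, φ, B, hB, j, S, h1, h2, h3, h4⟩ := glue_aux α hα F E δ hδ hδ1
  let e : A ≃ Fin (Nat.card A) := Finite.equivFin A
  have hN : Nonempty (Fin (Nat.card A)) := ⟨e (Classical.arbitrary A)⟩
  refine ⟨Fin (Nat.card A), inferInstance, hN, fun i g => e.permCongr (φ i g), B, hB,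
    fun a => j (e.symm a), e.symm ⁻¹' S, ?_, ?_, ?_, ?_⟩
  · intro i
    simp only [h1 i]
    ext a
    simp
  · intro i g hg h hh
    have := h2 i g hg h hh
    have h5 : e.permCongr (φ i g) * e.permCongr (φ i h) = e.permCongr (φ i g * φ i h) := by
      ext a
      simp
    simp only [h5, hd_permCongr]
    exact this
  · have h5 : (e.symm ⁻¹' S)ᶜ = e.symm ⁻¹' Sᶜ := rfl
    rw [h5, Set.ncard_preimage_of_injective_subset_range e.symm.injective
      (fun a _ => e.symm.surjective a)]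
    simpa using h3
  · intro i a ha g hg hga x hx hgx
    have := h4 i (e.symm a) ha g hg (by simpa using hga) x hx hgx
    simpa using this

/-! ### Words -/

section words

variable {ι : Type u} {G : ι → Type v} [∀ i, Group (G i)]

/-- Evaluate a word in the elements of the groups `G i` through a family of maps
`φ i : G i → Sym(A)`. -/
def ev {A : Type w} (φ : ∀ i, G i → Equiv.Perm A) : FreeMonoid (Σ i, G i) →* Equiv.Perm A :=
  FreeMonoid.lift fun p => φ p.1 p.2

/-- Two words are *stably close* if every unital family of maps which is sufficiently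
multiplicative on a suitable finite set evaluates them to close permutations. -/
def Close (w w' : FreeMonoid (Σ i, G i)) : Prop :=
  ∀ ε : ℝ, 0 < ε → ∃ (T : Finset (Σ i, G i)) (δ : ℝ), 0 < δ ∧
    ∀ (A : Type) (_ : Finite A) (φ : ∀ i, G i → Equiv.Perm A), (∀ i, φ i 1 = 1) →
      (∀ i (a b : G i), ⟨i, a⟩ ∈ T → ⟨i, b⟩ ∈ T →
        hammingDist (φ i (a * b)) (φ i a * φ i b) < δ) →
      hammingDist (ev φ w) (ev φ w') < ε

theorem Close.refl (w : FreeMonoid (Σ i, G i)) : Close w w := by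
  intro ε hε
  exact ⟨∅, 1, one_pos, fun A _ φ _ _ => by rw [hd_self]; exact hε⟩

theorem Close.symm {w w' : FreeMonoid (Σ i, G i)} (h : Close w w') : Close w' w := by
  intro ε hε
  obtain ⟨T, δ, hδ, h1⟩ := h ε hε
  exact ⟨T, δ, hδ, fun A hA φ hφ hm => by rw [hd_comm]; exact h1 A hA φ hφ hm⟩

theorem Close.trans {w w' w'' : FreeMonoid (Σ i, G i)} (h : Close w w') (h' : Close w' w'') :
    Close w w'' := by
  classical
  intro ε hε
  obtain ⟨T, δ, hδ, h1⟩ := h (ε / 2) (by positivity)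
  obtain ⟨T', δ', hδ', h2⟩ := h' (ε / 2) (by positivity)
  refine ⟨T ∪ T', min δ δ', lt_min hδ hδ', fun A hA φ hφ hm => ?_⟩
  have h3 := h1 A hA φ hφ fun i a b ha hb =>
    (hm i a b (Finset.mem_union_left _ ha) (Finset.mem_union_left _ hb)).trans_le (min_le_left _ _)
  have h4 := h2 A hA φ hφ fun i a b ha hb =>
    (hm i a b (Finset.mem_union_right _ ha) (Finset.mem_union_right _ hb)).trans_le
      (min_le_right _ _)
  have h5 := hd_triangle (ev φ w) (ev φ w') (ev φ w'')
  linarith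

theorem Close.mul {w w' z z' : FreeMonoid (Σ i, G i)} (h : Close w w') (h' : Close z z') :
    Close (w * z) (w' * z') := by
  classical
  intro ε hε
  obtain ⟨T, δ, hδ, h1⟩ := h (ε / 2) (by positivity)
  obtain ⟨T', δ', hδ', h2⟩ := h' (ε / 2) (by positivity)
  refine ⟨T ∪ T', min δ δ', lt_min hδ hδ', fun A hA φ hφ hm => ?_⟩
  have h3 := h1 A hA φ hφ fun i a b ha hb =>
    (hm i a b (Finset.mem_union_left _ ha) (Finset.mem_union_left _ hb)).trans_le (min_le_left _ _)
  have h4 := h2 A hA φ hφ fun i a b ha hb =>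
    (hm i a b (Finset.mem_union_right _ ha) (Finset.mem_union_right _ hb)).trans_le
      (min_le_right _ _)
  have h5 := hd_mul (ev φ w) (ev φ w') (ev φ z) (ev φ z')
  rw [map_mul, map_mul]
  linarith

/-- `Close` as a congruence on the free monoid. -/
def closeCon : Con (FreeMonoid (Σ i, G i)) where
  r := Close
  iseqv := ⟨Close.refl, Close.symm, Close.trans⟩
  mul' := Close.mul

theorem rel_le_close (w w' : FreeMonoid (Σ i, G i)) (h : Monoid.CoprodI.Rel G w w') :
    Close w w' := by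
  classical
  rcases h with ⟨i⟩ | ⟨x, y⟩
  · intro ε hε
    refine ⟨∅, 1, one_pos, fun A _ φ hφ _ => ?_⟩
    have : ev φ (FreeMonoid.of ⟨i, 1⟩) = 1 := by simp [ev, hφ]
    rw [this, map_one, hd_self]
    exact hε
  · rename_i i
    intro ε hε
    refine ⟨{⟨i, x⟩, ⟨i, y⟩}, ε, hε, fun A _ φ hφ hm => ?_⟩
    rw [hd_comm, map_mul]
    simp only [ev, FreeMonoid.lift_eval_of]
    exact hm i x y (by simp) (by simp)

theorem close_of_eq (w w' : FreeMonoid (Σ i, G i))
    (h : Con.mk' (conGen (Monoid.CoprodI.Rel G)) w = Con.mk' (conGen (Monoid.CoprodI.Rel G)) w') :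
    Close w w' := by
  have h1 : conGen (Monoid.CoprodI.Rel G) w w' := (Con.eq _).1 h
  have h2 : conGen (Monoid.CoprodI.Rel G) ≤ closeCon := Con.conGen_le.2 rel_le_close
  exact h2 h1

/-- The points of `X` visited when a word is applied to `x` step by step. -/
def traj {X : Type w} (α : ∀ i, G i →* Equiv.Perm X) : List (Σ i, G i) → X → List X
  | [], x => [x]
  | p :: l, x => x :: traj α l (α p.1 p.2⁻¹ x)

theorem mem_traj {X : Type w} (α : ∀ i, G i →* Equiv.Perm X) (l : List (Σ i, G i)) (x : X) :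
    x ∈ traj α l x := by
  cases l <;> simp [traj]

/-- All the points visited by `a` under the suffixes of a word lie in `S`. -/
def Good {A : Type w} (φ : ∀ i, G i → Equiv.Perm A) (S : Set A) : List (Σ i, G i) → A → Prop
  | [], a => a ∈ S
  | p :: l, a => Good φ S l a ∧ ev φ (FreeMonoid.ofList (p :: l)) a ∈ S

theorem Good.mem {A : Type w} {φ : ∀ i, G i → Equiv.Perm A} {S : Set A} {l : List (Σ i, G i)}
    {a : A} (h : Good φ S l a) : ev φ (FreeMonoid.ofList l) a ∈ S := by
  cases l with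
  | nil => simpa [Good, ev] using h
  | cons p l => exact h.2

theorem ncard_bad {A : Type w} [Finite A] (φ : ∀ i, G i → Equiv.Perm A) (S : Set A)
    (l : List (Σ i, G i)) : {a : A | ¬ Good φ S l a}.ncard ≤ (l.length + 1) * Sᶜ.ncard := by
  induction l with
  | nil =>
    have : {a : A | ¬ Good φ S [] a} = Sᶜ := rfl
    rw [this]; simp
  | cons p l ih =>
    have h1 : {a : A | ¬ Good φ S (p :: l) a} ⊆ {a : A | ¬ Good φ S l a} ∪
        (ev φ (FreeMonoid.ofList (p :: l))) ⁻¹' Sᶜ := by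
      intro a ha
      simp only [Good, Set.mem_ofPred_eq, not_and_or] at ha
      exact ha
    have h2 := (Set.ncard_le_ncard h1 (Set.toFinite _)).trans (Set.ncard_union_le _ _)
    rw [Set.ncard_preimage_of_injective_subset_range (Equiv.injective _)
      (fun a _ => Equiv.surjective _ a)] at h2
    calc _ ≤ _ := h2
      _ ≤ (l.length + 1) * Sᶜ.ncard + Sᶜ.ncard := by gcongr
      _ = _ := by simp; ring

/-- Step-by-step equivariance. -/
theorem equivariance {X : Type w} (α : ∀ i, G i →* Equiv.Perm X) {A B : Type}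
    (φ : ∀ i, G i → Equiv.Perm A) (E : Finset X) (j : A → (E ↪ B)) (S : Set A)
    (T : Finset (Σ i, G i))
    (h : ∀ i, ∀ a ∈ S, ∀ g : G i, ⟨i, g⟩ ∈ T → φ i g a ∈ S →
      ∀ (x : X) (hx : x ∈ E) (hgx : α i g⁻¹ x ∈ E), j (φ i g a) ⟨x, hx⟩ = j a ⟨α i g⁻¹ x, hgx⟩)
    (l : List (Σ i, G i)) (hl : ∀ p ∈ l, p ∈ T) (a : A) (ha : Good φ S l a) (x : X)
    (hx : ∀ y ∈ traj α l x, y ∈ E) :
    ∃ h1 : x ∈ E,
    ∃ h2 : (FreeMonoid.lift (fun p : Σ i, G i => α p.1 p.2) (FreeMonoid.ofList l))⁻¹ x ∈ E,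
      j (ev φ (FreeMonoid.ofList l) a) ⟨x, h1⟩ = j a ⟨_, h2⟩ := by
  induction l generalizing x with
  | nil =>
    have h1 : x ∈ E := hx x (by simp [traj])
    refine ⟨h1, by simpa using h1, ?_⟩
    simp
  | cons p l ih =>
    have h1 : x ∈ E := hx x (by simp [traj])
    have h3 : ∀ y ∈ traj α l (α p.1 p.2⁻¹ x), y ∈ E := fun y hy => hx y (List.mem_cons_of_mem _ hy)
    obtain ⟨h4, h5, h6⟩ := ih (fun q hq => hl q (by simp [hq])) ha.1 _ h3
    have h7 : (FreeMonoid.lift (fun p : Σ i, G i => α p.1 p.2) (FreeMonoid.ofList (p :: l)))⁻¹ x =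
        (FreeMonoid.lift (fun p : Σ i, G i => α p.1 p.2) (FreeMonoid.ofList l))⁻¹
          (α p.1 p.2⁻¹ x) := by
      rw [FreeMonoid.ofList_cons, map_mul, mul_inv_rev]
      simp
    have h8 : ev φ (FreeMonoid.ofList (p :: l)) a =
        φ p.1 p.2 (ev φ (FreeMonoid.ofList l) a) := by
      rw [FreeMonoid.ofList_cons, map_mul]
      simp [ev]
    have h9 := h p.1 (ev φ (FreeMonoid.ofList l) a) ha.1.mem p.2 (hl p (by simp))
      (by rw [← h8]; exact ha.2) x h1 h4
    refine ⟨h1, by rw [h7]; exact h5, ?_⟩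
    simp only [h8, h7]
    rw [h9, h6]

end words

theorem exists_pos_lower_bound {β : Type*} (s : Finset β) (f : β → ℝ) (hf : ∀ b, 0 < f b) :
    ∃ δ : ℝ, 0 < δ ∧ ∀ b ∈ s, δ ≤ f b := by
  classical
  induction s using Finset.induction_on with
  | empty => exact ⟨1, one_pos, by simp⟩
  | insert b s _ ih =>
    obtain ⟨δ, hδ, h⟩ := ih
    refine ⟨min δ (f b), lt_min hδ (hf b), fun c hc => ?_⟩
    rcases Finset.mem_insert.1 hc with rfl | hc
    · exact min_le_right _ _
    · exact (min_le_left _ _).trans (h c hc)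

/-- **Free product actions of sofic actions are sofic.** Let `α i : G i → Sym(X)`, `i ∈ ι`, be
sofic actions of groups on one set `X`. Then the action of the free product of the groups `G i`
on `X` which restricts to `α i` on each `G i` is sofic. -/
theorem isSoficAction_lift {ι : Type u} {G : ι → Type v} [∀ i, Group (G i)] {X : Type w}
    (α : ∀ i, G i →* Equiv.Perm X) (hα : ∀ i, IsSoficAction (α i)) :
    IsSoficAction (Monoid.CoprodI.lift α) := by
  classical
  intro F E ε hε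
  -- a word for every element of the free product
  obtain ⟨word, hword1, hword⟩ : ∃ word : Monoid.CoprodI G → FreeMonoid (Σ i, G i),
      word 1 = 1 ∧ ∀ g, Con.mk' (conGen (Monoid.CoprodI.Rel G)) (word g) = g := by
    refine ⟨fun g => if g = 1 then 1 else
      Function.surjInv (Con.mk'_surjective (c := conGen (Monoid.CoprodI.Rel G))) g, by simp, ?_⟩
    intro g
    by_cases hg : g = 1
    · subst hg
      simp only [if_true, map_one]
      rfl
    · simp only [hg, if_false]
      exact Function.surjInv_eq Con.mk'_surjective g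
  have hclose : ∀ g h : Monoid.CoprodI G, Close (word (g * h)) (word g * word h) := by
    intro g h
    apply close_of_eq
    rw [map_mul, hword, hword, hword]
    rfl
  choose T1 δ1 hδ1 hT1 using fun g h => hclose g h ε hε
  obtain ⟨δ2, hδ2, hδ2'⟩ := exists_pos_lower_bound (F ×ˢ F) (fun q => δ1 q.1 q.2)
    (fun q => hδ1 q.1 q.2)
  -- all the syllables involved
  let T : Finset (Σ i, G i) := (F ×ˢ F).biUnion (fun q => T1 q.1 q.2) ∪
    F.biUnion (fun g => (FreeMonoid.toList (word g)).toFinset)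
  let ι0 : Finset ι := T.image Sigma.fst
  -- all the points involved
  let E' : Finset X := E ∪
    F.biUnion (fun g => E.biUnion (fun x => (traj α (FreeMonoid.toList (word g)) x).toFinset))
  let L : ℕ := ∑ g ∈ F, ((FreeMonoid.toList (word g)).length + 1)
  let δ : ℝ := min (min δ2 (1 / 2)) (ε / (L * ι0.card + 1))
  have hLpos : (0 : ℝ) < (L * ι0.card + 1 : ℝ) := by positivity
  have hδ : 0 < δ := lt_min (lt_min hδ2 (by norm_num)) (by positivity)
  have hδ1' : δ < 1 :=
    ((min_le_left _ _).trans (min_le_right _ _)).trans_lt (by norm_num)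
  have hδδ2 : δ ≤ δ2 := (min_le_left _ _).trans (min_le_left _ _)
  have hδε : (L * ι0.card : ℝ) * δ < ε := by
    have h1 : δ * (L * ι0.card + 1 : ℝ) ≤ ε := by
      rw [← le_div_iff₀ hLpos]
      exact min_le_right _ _
    nlinarith
  obtain ⟨A, hA, hAne, φ0, B, hB, j, S0, hunit, hmult, hS0, horb⟩ :=
    glue (κ := ι0) (G := fun i => G i) (fun i => α i) (fun i => hα i)
      (fun i => T.preimage (Sigma.mk (i : ι)) (sigma_mk_injective.injOn)) E' δ hδ hδ1'
  have hφ : ∃ φ : ∀ i, G i → Equiv.Perm A, ∀ i (g : G i),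
      φ i g = if h : i ∈ ι0 then φ0 ⟨i, h⟩ g else 1 := ⟨_, fun _ _ => rfl⟩
  obtain ⟨φ, hφ⟩ := hφ
  have hφ1 : ∀ i, φ i 1 = 1 := by
    intro i
    rw [hφ]
    split_ifs with h
    · exact hunit ⟨i, h⟩
    · rfl
  have hφT : ∀ i (g : G i) (h : (⟨i, g⟩ : Σ i, G i) ∈ T), ∃ h : i ∈ ι0, ∀ g' : G i,
      φ i g' = φ0 ⟨i, h⟩ g' := by
    intro i g h
    have h1 : i ∈ ι0 := Finset.mem_image.2 ⟨⟨i, g⟩, h, rfl⟩
    refine ⟨h1, fun g' => ?_⟩
    rw [hφ, dif_pos h1]
  -- the approximation
  refine ⟨A, hA, fun g => ev φ (word g), by simp [hword1], ?_, B, hB,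
    {a | ∀ g ∈ F, Good φ S0 (FreeMonoid.toList (word g)) a},
    fun a => (Function.Embedding.subtypeMap (Function.Embedding.refl X)
      (fun x hx => Finset.mem_union_left _ hx)).trans (j a), ?_, ?_⟩
  · -- multiplicativity
    intro g hg h hh
    have h1 := hT1 g h A hA φ hφ1 ?_
    · rw [map_mul] at h1
      exact h1
    · intro i a b ha hb
      have haT : (⟨i, a⟩ : Σ i, G i) ∈ T := Finset.mem_union_left _
        (Finset.mem_biUnion.2 ⟨(g, h), Finset.mem_product.2 ⟨hg, hh⟩, ha⟩)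
      have hbT : (⟨i, b⟩ : Σ i, G i) ∈ T := Finset.mem_union_left _
        (Finset.mem_biUnion.2 ⟨(g, h), Finset.mem_product.2 ⟨hg, hh⟩, hb⟩)
      obtain ⟨hi, h2⟩ := hφT i a haT
      rw [h2, h2, h2]
      have h3 := hmult ⟨i, hi⟩ a (Finset.mem_preimage.2 haT) b (Finset.mem_preimage.2 hbT)
      exact h3.trans_le (hδδ2.trans (hδ2' (g, h) (Finset.mem_product.2 ⟨hg, hh⟩)))
  · -- most points are good
    set S : Set A := {a | ∀ g ∈ F, Good φ S0 (FreeMonoid.toList (word g)) a} with hSdef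
    have h1 : Sᶜ ⊆ ⋃ g ∈ F, {a : A | ¬ Good φ S0 (FreeMonoid.toList (word g)) a} := by
      intro a ha
      simp only [hSdef, Set.mem_compl_iff, Set.mem_ofPred_eq, not_forall] at ha
      obtain ⟨g, hg, h⟩ := ha
      exact Set.mem_iUnion₂.2 ⟨g, hg, h⟩
    have h2 : Sᶜ.ncard ≤ L * S0ᶜ.ncard := by
      calc Sᶜ.ncard ≤ (⋃ g ∈ F, {a : A | ¬ Good φ S0 (FreeMonoid.toList (word g)) a}).ncard :=
            Set.ncard_le_ncard h1 (Set.toFinite _)
        _ ≤ ∑ g ∈ F, {a : A | ¬ Good φ S0 (FreeMonoid.toList (word g)) a}.ncard :=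
            Finset.set_ncard_biUnion_le _ _
        _ ≤ ∑ g ∈ F, ((FreeMonoid.toList (word g)).length + 1) * S0ᶜ.ncard :=
            Finset.sum_le_sum fun g _ => ncard_bad φ S0 _
        _ = L * S0ᶜ.ncard := by rw [Finset.sum_mul]
    have h3 : (S.ncard : ℝ) + (Sᶜ.ncard : ℝ) = (Nat.card A : ℝ) := by
      exact_mod_cast Set.ncard_add_ncard_compl S
    have h4 : (Sᶜ.ncard : ℝ) ≤ (L : ℝ) * (S0ᶜ.ncard : ℝ) := by exact_mod_cast h2
    have h5 : (0 : ℝ) < (Nat.card A : ℝ) := by exact_mod_cast Nat.card_pos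
    have h6 : (Nat.card ι0 : ℝ) = (ι0.card : ℝ) := by simp
    rw [h6] at hS0
    have h7 : (Sᶜ.ncard : ℝ) < ε * Nat.card A := by
      calc (Sᶜ.ncard : ℝ) ≤ (L : ℝ) * (ι0.card * δ * Nat.card A) := by
            refine h4.trans ?_
            gcongr
        _ = ((L * ι0.card : ℝ) * δ) * Nat.card A := by ring
        _ < ε * Nat.card A := by gcongr
    linarith
  · -- equivariance
    rintro ⟨s, hs⟩ g hg x hx hgs hgx
    have hE' : ∀ y ∈ traj α (FreeMonoid.toList (word g)) x, y ∈ E' := by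
      intro y hy
      refine Finset.mem_union_right _ (Finset.mem_biUnion.2 ⟨g, hg, ?_⟩)
      exact Finset.mem_biUnion.2 ⟨x, hx, by simpa using hy⟩
    have hwT : ∀ p ∈ FreeMonoid.toList (word g), p ∈ T := by
      intro p hp
      exact Finset.mem_union_right _ (Finset.mem_biUnion.2 ⟨g, hg, by simpa using hp⟩)
    obtain ⟨h1, h2, h3⟩ := equivariance α φ E' j S0 T (by
      intro i a ha g' hg' hga y hy hgy
      obtain ⟨hi, h4⟩ := hφT i g' hg'
      rw [h4] at hga
      have := horb ⟨i, hi⟩ a ha g' (Finset.mem_preimage.2 hg') hga y hy hgy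
      simpa only [h4] using this) (FreeMonoid.toList (word g)) hwT s (hs g hg) x hE'
    have h4 : (FreeMonoid.lift (fun p : Σ i, G i => α p.1 p.2)
        (FreeMonoid.ofList (FreeMonoid.toList (word g))))⁻¹ x =
        Monoid.CoprodI.lift α g⁻¹ x := by
      have h5 : Monoid.CoprodI.lift α g =
          FreeMonoid.lift (fun p : Σ i, G i => α p.1 p.2) (word g) := by
        conv_lhs => rw [← hword g]
        rfl
      rw [map_inv, h5]
      rfl
    change j (ev φ (word g) s) ⟨x, _⟩ = j s ⟨_, _⟩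
    simp only [h4] at h3
    exact h3

end Pool.Agent.SoficActions
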